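import Pool.Agent.helper67.RG.Spec

/-! Row SIW: a factor of a flag is strongly irreducible. -/

namespace Pool.Agent.RG.SIW

open Matrix Polynomial Pool.Agent.GO Pool.Agent.AR

theorem SIW : SIW_stmt := by
  intro F Γ m _ _ _ _ V A B hAB hB hirr d W π hπ H hH
  have hmem : ∀ (U : Submodule F (Fin d → F)) (y : m → F),
      y ∈ (U.comap π).map B.subtype ↔ ∃ x : B, π x ∈ U ∧ x.1 = y := by
    intro U y
    constructor
    · rintro ⟨x, hx, rfl⟩
      exact ⟨x, hx, rfl⟩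
    · rintro ⟨x, hx, rfl⟩
      exact ⟨x, hx, rfl⟩
  refine ⟨?_, fun U hU => ?_⟩
  · obtain ⟨x, hxB, hxA⟩ := SetLike.exists_of_lt hAB
    rcases Nat.eq_zero_or_pos d with h0 | h0
    · subst h0
      exact absurd ((hπ.ker ⟨x, hxB⟩).1 (Subsingleton.elim _ _)) hxA
    · exact ⟨⟨0, h0⟩⟩
  · have h := hirr H hH ((U.comap π).map B.subtype) (by
      intro g hg y hy
      obtain ⟨x, hx, rfl⟩ := (hmem U y).1 hy
      refine (hmem U _).2 ⟨⟨V g *ᵥ x.1, hB g _ x.2⟩, ?_, rfl⟩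
      rw [hπ.equiv g x ⟨V g *ᵥ x.1, hB g _ x.2⟩ rfl]
      exact hU ⟨g, hg⟩ _ hx) (by
      intro x hx
      refine (hmem U x).2 ⟨⟨x, hAB.le hx⟩, ?_, rfl⟩
      rw [(hπ.ker ⟨x, hAB.le hx⟩).2 hx]
      exact U.zero_mem) (by
      intro y hy
      obtain ⟨x, _, rfl⟩ := (hmem U y).1 hy
      exact x.2)
    rcases h with h | h
    · left
      rw [Submodule.eq_bot_iff]
      intro u hu
      obtain ⟨x, rfl⟩ := hπ.surj u
      have : x.1 ∈ (U.comap π).map B.subtype := (hmem U _).2 ⟨x, hu, rfl⟩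
      rw [h] at this
      exact (hπ.ker x).2 this
    · right
      rw [Submodule.eq_top_iff']
      intro u
      obtain ⟨x, rfl⟩ := hπ.surj u
      have hx : x.1 ∈ (U.comap π).map B.subtype := by rw [h]; exact x.2
      obtain ⟨x', hx', e⟩ := (hmem U _).1 hx
      rw [← Subtype.ext e]
      exact hx'

end Pool.Agent.RG.SIW
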